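import Mathlib

namespace Pool.Agent.Results.MP_488bb9_co.Formula
open Finset

/-- Normal-play outcomes. Players are Booleans (`true` = White). `Out mv true a p`: player `a`,
to move at `p`, can force a win. `Out mv false a p`: player `a`, to move at `p`, loses. -/
inductive Out {Q : Type} (mv : Bool → Q → Q → Prop) : Bool → Bool → Q → Prop
  | win (a p q) : mv a p q → Out mv false (!a) q → Out mv true a p
  | lose (a p) : (∀ q, mv a p q → Out mv true (!a) q) → Out mv false a p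

/-- `+1` for White, `-1` for Black. -/
def sg (a : Bool) : ℤ := if a then 1 else -1

variable {P : Type} [PartialOrder P] [Fintype P] [DecidableEq P]

/-- `x` is maximal among the remaining elements `S`. -/
def MaxIn (S : Finset P) (x : P) : Prop := x ∈ S ∧ ∀ y ∈ S, x ≤ y → y = x

/-- `x` is minimal among the remaining elements `S`. -/
def MinIn (S : Finset P) (x : P) : Prop := x ∈ S ∧ ∀ y ∈ S, y ≤ x → y = x

/-- Moves in the disjunctive sum (min-max-removal game on the remaining set) + (integer `k`). -/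
def Mv (col : P → Bool) (a : Bool) (p q : Finset P × ℤ) : Prop :=
  (∃ v, (MaxIn p.1 v ∨ MinIn p.1 v) ∧ col v = a ∧ q = (p.1.erase v, p.2)) ∨
    (0 < sg a * p.2 ∧ q = (p.1, p.2 - sg a))

/-- `v(P) = n`: in `P + (-n)` whoever moves first loses. -/
def HasValue (col : P → Bool) (n : ℤ) : Prop :=
  ∀ a, Out (Mv col) false a (univ, -n)

/-- No blocking triple in the upper set generated by `x`. -/
def Ess (col : P → Bool) (x : P) : Prop :=
  ¬ ∃ p q c, x ≤ p ∧ p ⋖ q ∧ q ⋖ c ∧ col p = col q ∧ col c ≠ col q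

open Classical in
/-- white minus black among the essential elements above `x` -/
noncomputable def ee (col : P → Bool) (x : P) : ℤ :=
  ((univ.filter fun y => x ≤ y ∧ Ess col y ∧ col y = true).card : ℤ) -
    ((univ.filter fun y => x ≤ y ∧ Ess col y ∧ col y = false).card : ℤ)

open Classical in
/-- the top-down recursion defining `g` -/
def Rec (col : P → Bool) (g : P → ℤ) : Prop :=
  ∀ x, g x = if col x = true then max (ee col x) (1 + ∑ c ∈ univ.filter (x ⋖ ·), g c)
    else min (ee col x) (-1 + ∑ c ∈ univ.filter (x ⋖ ·), g c)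

theorem out_excl {Q : Type} {mv : Bool → Q → Q → Prop} {b a p} (h : Out mv b a p) :
    ¬ Out mv (!b) a p := by
  induction h with
  | win a p q h _ ih =>
    intro h'
    cases h' with
    | lose _ _ h2 => exact ih (h2 q h)
  | lose a p _ ih =>
    intro h'
    cases h' with
    | win _ _ q h1 h2 => exact ih q h1 h2

theorem sg_not (a : Bool) : sg (!a) = - sg a := by cases a <;> simp [sg]
theorem sg_sq (a : Bool) : sg a * sg a = 1 := by cases a <;> simp [sg]

theorem out_of {Q : Type} (mv : Bool → Q → Q → Prop) (I : Q → Prop) (μ : Q → ℕ) (ψ : Q → ℤ)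
    (h0 : ∀ a p q, I p → mv a p q → μ q < μ p ∧ I q)
    (h1 : ∀ a p q, I p → mv a p q → sg a * ψ q ≤ sg a * ψ p - 1)
    (h2 : ∀ a p, I p → 0 < sg a * ψ p → ∃ q, mv a p q ∧ sg a * ψ p - 1 ≤ sg a * ψ q) (p : Q)
    (hI : I p) :
    ∀ a, (0 < sg a * ψ p → Out mv true a p) ∧ (sg a * ψ p ≤ 0 → Out mv false a p) := by
  induction' h : μ p using Nat.strong_induction_on with n ih generalizing p
  subst h
  intro a
  constructor
  · intro hp
    obtain ⟨q, hq, hq'⟩ := h2 a p hI hp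
    refine Out.win a p q hq ((ih _ (h0 _ _ _ hI hq).1 q (h0 _ _ _ hI hq).2 rfl _).2 ?_)
    rw [sg_not]; linarith
  · intro hp
    refine Out.lose a p fun q hq => (ih _ (h0 _ _ _ hI hq).1 q (h0 _ _ _ hI hq).2 rfl _).1 ?_
    have := h1 _ _ _ hI hq
    rw [sg_not]; linarith

theorem sum_le_of_inj {V : Type} {col : V → Bool} (N : Finset V) (a : Bool) (R : V → V → Prop)
    (h1 : ∀ v ∈ N, col v = a → ∃ w ∈ N, col w ≠ a ∧ R v w)
    (h2 : ∀ v ∈ N, ∀ v' ∈ N, ∀ w, col v = a → col v' = a → R v w → R v' w → v = v') :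
    sg a * ∑ v ∈ N, sg (col v) ≤ 0 := by
  classical
  rcases isEmpty_or_nonempty V with hV | hV
  · simp [eq_empty_of_isEmpty N]
  choose! f hf using h1
  have hc : (N.filter (col · = a)).card ≤ (N.filter (¬ col · = a)).card := by
    refine card_le_card_of_injOn f ?_ ?_
    · intro v hv
      simp only [coe_filter, Set.mem_setOf_eq] at hv ⊢
      exact ⟨(hf v hv.1 hv.2).1, (hf v hv.1 hv.2).2.1⟩
    · intro v hv v' hv' e
      simp only [coe_filter, Set.mem_setOf_eq] at hv hv'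
      exact h2 v hv.1 v' hv'.1 _ hv.2 hv'.2 (hf v hv.1 hv.2).2.2 (e ▸ (hf v' hv'.1 hv'.2).2.2)
  rw [mul_sum, ← sum_filter_add_sum_filter_not N (col · = a)]
  rw [sum_congr rfl (g := fun _ => (1 : ℤ)), sum_congr (s₁ := N.filter (¬ col · = a)) rfl
    (g := fun _ => (-1 : ℤ))]
  · simp only [sum_const, nsmul_eq_mul]; push_cast; omega
  · intro v hv
    have : col v = !a := by
      have := (mem_filter.1 hv).2
      revert this; cases col v <;> cases a <;> simp
    rw [this, sg_not, mul_neg, sg_sq]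
  · intro v hv
    rw [(mem_filter.1 hv).2, sg_sq]

def Forest (P : Type) [PartialOrder P] : Prop := ∀ x y z : P, y ⋖ x → z ⋖ x → y = z

def Cvx (S : Finset P) : Prop := ∀ x ∈ S, ∀ z ∈ S, ∀ y, x ≤ y → y ≤ z → y ∈ S

def Es (col : P → Bool) (S : Finset P) (x : P) : Prop :=
  ¬ ∃ p q c, c ∈ S ∧ x ≤ p ∧ p ⋖ q ∧ q ⋖ c ∧ col p = col q ∧ col c ≠ col q

open Classical in
noncomputable def EE (col : P → Bool) (S : Finset P) (x : P) : Finset P :=
  S.filter fun y => x ≤ y ∧ Es col S y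

noncomputable def eS (col : P → Bool) (S : Finset P) (x : P) : ℤ := ∑ y ∈ EE col S x, sg (col y)

open Classical in
noncomputable def ch (S : Finset P) (x : P) : Finset P := S.filter (x ⋖ ·)

open Classical in
noncomputable def rt (S : Finset P) : Finset P := S.filter (MinIn S)

def F (a : Bool) (u t : ℤ) : ℤ := if a = true then max u (1 + t) else min u (-1 + t)

variable {col : P → Bool}

omit [Fintype P] [DecidableEq P] in
theorem mem_EE {S x y} : y ∈ EE col S x ↔ y ∈ S ∧ x ≤ y ∧ Es col S y := by simp [EE]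
omit [Fintype P] [DecidableEq P] in
theorem mem_ch {S : Finset P} {x y} : y ∈ ch S x ↔ y ∈ S ∧ x ⋖ y := by simp [ch]
omit [Fintype P] [DecidableEq P] in
theorem mem_rt {S : Finset P} {y} : y ∈ rt S ↔ MinIn S y := by
  simp only [rt, mem_filter, and_iff_right_iff_imp]; exact fun h => h.1

noncomputable def gS (col : P → Bool) (S : Finset P) : P → ℤ :=
  (wellFounded_gt (α := P)).fix fun x ih =>
    F (col x) (eS col S x) (∑ c ∈ (ch S x).attach, ih c.1 (mem_ch.1 c.2).2.lt)

omit [DecidableEq P] in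
theorem gS_eq (S : Finset P) (x : P) :
    gS col S x = F (col x) (eS col S x) (∑ c ∈ ch S x, gS col S c) := by
  rw [← sum_attach (ch S x)]
  exact WellFounded.fix_eq _ _ _

noncomputable def phi (col : P → Bool) (S : Finset P) : ℤ := ∑ r ∈ rt S, gS col S r

omit [DecidableEq P] in
theorem le_cov (hF : Forest P) {x q c : P} (h : x < c) (hq : q ⋖ c) : x ≤ q := by
  obtain ⟨p, h1, h2⟩ := exists_le_covBy_of_lt h
  exact hF _ _ _ h2 hq ▸ h1

omit [DecidableEq P] in
theorem chain (hF : Forest P) (l : P) : ∀ a b : P, a ≤ l → b ≤ l → a ≤ b ∨ b ≤ a := by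
  induction l using (wellFounded_lt (α := P)).induction with
  | _ l ih =>
  intro a b ha hb
  rcases ha.eq_or_lt with rfl | ha
  · exact Or.inr hb
  rcases hb.eq_or_lt with rfl | hb
  · exact Or.inl ha.le
  obtain ⟨p, h1, h2⟩ := exists_le_covBy_of_lt ha
  exact ih p h2.lt a b h1 (le_cov hF hb h2)

omit [Fintype P] [DecidableEq P] in
theorem Es.up {S x y} (h : Es col S x) (hxy : x ≤ y) : Es col S y :=
  fun ⟨p, q, c, h1, h2, h3⟩ => h ⟨p, q, c, h1, hxy.trans h2, h3⟩

omit [Fintype P] [DecidableEq P] in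
theorem Es.anti {S S' x} (h : Es col S x) (hs : S' ⊆ S) : Es col S' x :=
  fun ⟨p, q, c, h1, h2⟩ => h ⟨p, q, c, hs h1, h2⟩

theorem loc {S : Finset P} {l : P} (x : P) : ¬ x ≤ l →
    eS col (S.erase l) x = eS col S x ∧ gS col (S.erase l) x = gS col S x := by
  induction x using (wellFounded_gt (α := P)).induction with
  | _ x ih =>
  intro hx
  have e : eS col (S.erase l) x = eS col S x := by
    unfold eS
    congr 1
    ext y
    simp only [mem_EE, mem_erase]
    constructor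
    · rintro ⟨h1, h2, h3⟩
      refine ⟨h1.2, h2, fun ⟨p, q, c, k1, k2, k3, k4, k5⟩ => h3 ⟨p, q, c, ?_, k2, k3, k4, k5⟩⟩
      refine mem_erase.2 ⟨?_, k1⟩
      rintro rfl
      exact hx (h2.trans (k2.trans (k3.le.trans k4.le)))
    · rintro ⟨h1, h2, h3⟩
      exact ⟨⟨fun h => hx (h ▸ h2), h1⟩, h2, h3.anti (erase_subset _ _)⟩
  refine ⟨e, ?_⟩
  rw [gS_eq, gS_eq S, e]
  congr 1
  refine sum_congr ?_ fun c hc => (ih c (mem_ch.1 hc).2.lt fun h => hx ((mem_ch.1 hc).2.le.trans h)).2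
  ext y
  simp only [mem_ch, mem_erase]
  exact ⟨fun h => ⟨h.1.2, h.2⟩, fun h => ⟨⟨fun k => hx (k ▸ h.2.le), h.1⟩, h.2⟩⟩

omit [Fintype P] in
theorem cvx_erase {S : Finset P} {v} (hS : Cvx S) (h : MaxIn S v ∨ MinIn S v) :
    Cvx (S.erase v) := by
  intro x hx z hz y h1 h2
  rw [mem_erase] at *
  refine ⟨?_, hS x hx.2 z hz.2 y h1 h2⟩
  rintro rfl
  rcases h with h | h
  · exact hz.1 (h.2 z hz.2 h2)
  · exact hx.1 (h.2 x hx.2 h1)

theorem phi_min (hF : Forest P) {S : Finset P} {r} (hS : Cvx S) (hr : MinIn S r) :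
    phi col (S.erase r) = phi col S - gS col S r + ∑ c ∈ ch S r, gS col S c := by
  have h1 : rt (S.erase r) = (rt S).erase r ∪ ch S r := by
    ext y
    simp only [mem_rt, mem_union, mem_erase, mem_ch, MinIn]
    constructor
    · rintro ⟨⟨a, b⟩, c⟩
      by_cases hry : r ≤ y
      · refine Or.inr ⟨b, lt_of_le_of_ne hry a.symm, fun z z1 z2 => ?_⟩
        exact z2.ne (c z ⟨z1.ne', hS r hr.1 y b z z1.le z2.le⟩ z2.le)
      · exact Or.inl ⟨a, b, fun z hz k => c z ⟨fun e => hry (e ▸ k), hz⟩ k⟩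
    · rintro (⟨a, b, c⟩ | ⟨a, b⟩)
      · exact ⟨⟨a, b⟩, fun z hz k => c z hz.2 k⟩
      · refine ⟨⟨b.lt.ne', a⟩, fun z hz k => ?_⟩
        by_contra hne
        exact hz.1 (hr.2 z hz.2 (le_cov hF (lt_of_le_of_ne k hne) b))
  have h2 : Disjoint ((rt S).erase r) (ch S r) := by
    rw [disjoint_left]
    intro y a b
    rw [mem_erase, mem_rt] at a
    exact a.1 (a.2.2 r hr.1 (mem_ch.1 b).2.le).symm
  have h3 := add_sum_erase (rt S) (gS col S) (mem_rt.2 hr)
  have h4 : phi col (S.erase r) = ∑ y ∈ rt (S.erase r), gS col S y := by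
    refine sum_congr rfl fun y hy => (loc y fun k => ?_).2
    have := mem_erase.1 (mem_rt.1 hy).1
    exact this.1 (hr.2 y this.2 k)
  rw [h4, h1, sum_union h2]
  unfold phi; linarith

omit [DecidableEq P] in
theorem g_max {S : Finset P} {l} (hl : MaxIn S l) :
    ch S l = ∅ ∧ Es col S l ∧ gS col S l = sg (col l) := by
  have h1 : ch S l = ∅ := by
    ext y
    simp only [mem_ch, notMem_empty, iff_false]
    exact fun h => h.2.lt.ne' (hl.2 y h.1 h.2.le)
  have h2 : Es col S l := fun ⟨p, q, c, k1, k2, k3, k4, _⟩ =>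
    (k2.trans_lt (k3.lt.trans k4.lt)).ne' (hl.2 c k1 (k2.trans (k3.le.trans k4.le)))
  have h3 : EE col S l = {l} := by
    ext y
    simp only [mem_EE, mem_singleton]
    exact ⟨fun h => hl.2 y h.1 h.2.1, fun h => by subst h; exact ⟨hl.1, le_rfl, h2⟩⟩
  refine ⟨h1, h2, ?_⟩
  rw [gS_eq, h1, eS, h3]
  cases h : col l <;> simp [F, sg, h]

theorem sum_one {S C : Finset P} {l c0 : P} (h0 : c0 ∈ C) (h1 : ∀ c ∈ C, c ≤ l → c = c0) :
    ∑ c ∈ C.erase l, gS col (S.erase l) c =
      ∑ c ∈ C, gS col S c - gS col S c0 + if c0 = l then 0 else gS col (S.erase l) c0 := by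
  have e : ∑ c ∈ C.erase c0, gS col (S.erase l) c = ∑ c ∈ C.erase c0, gS col S c :=
    sum_congr rfl fun c hc => (loc c fun k => (mem_erase.1 hc).1 (h1 c (mem_erase.1 hc).2 k)).2
  have h3 := add_sum_erase C (gS col S) h0
  split_ifs with h
  · subst h; linarith
  · have : l ∉ C := fun k => h (h1 l k le_rfl).symm
    rw [erase_eq_of_notMem this, ← add_sum_erase C _ h0]; linarith

theorem F_mono (b c : Bool) {u u' t t' d : ℤ} (h1 : sg b * u' ≤ sg b * (u - d))
    (h2 : sg b * t' ≤ sg b * (t - d)) : sg b * F c u' t' ≤ sg b * (F c u t - d) := by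
  cases b <;> cases c <;> simp [sg, F] at * <;> omega

theorem phi_max (hF : Forest P) {S : Finset P} {l} (hS : Cvx S) (hl : MaxIn S l) (b : Bool)
    (he : ∀ x ∈ S, x < l → sg b * eS col (S.erase l) x ≤ sg b * (eS col S x - sg (col l))) :
    sg b * phi col (S.erase l) ≤ sg b * (phi col S - sg (col l)) := by
  have key : ∀ x, x ∈ S → x ≤ l → sg b * (if x = l then 0 else gS col (S.erase l) x) ≤
      sg b * (gS col S x - sg (col l)) := by
    intro x
    induction x using (wellFounded_gt (α := P)).induction with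
    | _ x ih =>
    intro hx hxl
    split_ifs with h
    · subst h; rw [(g_max hl).2.2]; simp
    have lt := lt_of_le_of_ne hxl h
    obtain ⟨c0, k1, k2⟩ := exists_covBy_le_of_lt lt
    have c1 : c0 ∈ S := hS x hx l hl.1 c0 k1.le k2
    rw [gS_eq, gS_eq S]
    refine F_mono b _ (he x hx lt) ?_
    have : ch (S.erase l) x = (ch S x).erase l := by
      ext y; simp only [mem_ch, mem_erase]; tauto
    rw [this, sum_one (c0 := c0) (mem_ch.2 ⟨c1, k1⟩)]
    · have := ih c0 k1.lt c1 k2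
      simp only [mul_add, mul_sub] at this ⊢
      linarith
    · intro c hc k
      have k3 := (mem_ch.1 hc).2
      rcases chain hF l c c0 k k2 with h | h
      · exact (k1.eq_or_eq k3.le h).resolve_left k3.lt.ne'
      · exact ((k3.eq_or_eq k1.le h).resolve_left k1.lt.ne').symm
  obtain ⟨r, r1, r2⟩ := (wellFounded_lt (α := P)).has_min {y | y ∈ S ∧ y ≤ l} ⟨l, hl.1, le_rfl⟩
  have hr : MinIn S r := ⟨r1.1, fun y hy k => by
    by_contra hne
    exact r2 y ⟨hy, k.trans r1.2⟩ (lt_of_le_of_ne k hne)⟩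
  have : rt (S.erase l) = (rt S).erase l := by
    ext y
    simp only [mem_rt, mem_erase, MinIn]
    constructor
    · rintro ⟨⟨a1, a2⟩, a3⟩
      refine ⟨a1, a2, fun z hz k => a3 z ⟨?_, hz⟩ k⟩
      rintro rfl
      exact a1 (hl.2 y a2 k)
    · rintro ⟨a1, a2, a3⟩
      exact ⟨⟨a1, a2⟩, fun z hz k => a3 z hz.2 k⟩
  unfold phi
  rw [this, sum_one (c0 := r) (mem_rt.2 hr)]
  · have := key r r1.1 r1.2
    simp only [mul_add, mul_sub] at this ⊢
    linarith
  · intro c hc k
    rw [mem_rt] at hc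
    rcases chain hF l c r k r1.2 with h | h
    · exact hr.2 c hc.1 h
    · exact (hc.2 r hr.1 h).symm

omit [DecidableEq P] in
theorem mono_col {S : Finset P} (hS : Cvx S) {v w} (hv : v ∈ S) (he : Es col S v) (hw : v ⋖ w)
    (hc : col v = col w) (z : P) : z ∈ S → w ≤ z → col z = col v := by
  induction z using (wellFounded_lt (α := P)).induction with
  | _ z ih =>
  intro hz hwz
  rcases hwz.eq_or_lt with rfl | h
  · exact hc.symm
  obtain ⟨z1, a1, a2⟩ := exists_le_covBy_of_lt h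
  have m1 : z1 ∈ S := hS v hv z hz z1 (hw.le.trans a1) a2.le
  have e1 := ih z1 a2.lt m1 a1
  by_contra hne
  rcases a1.eq_or_lt with rfl | h
  · exact he ⟨v, w, z, hz, le_rfl, hw, a2, hc, hc ▸ hne⟩
  obtain ⟨z2, b1, b2⟩ := exists_le_covBy_of_lt h
  have e2 := ih z2 (b2.lt.trans a2.lt) (hS v hv z hz z2 (hw.le.trans b1) (b2.le.trans a2.le)) b1
  exact he ⟨z2, z1, z, hz, hw.le.trans b1, b2, a2, e2.trans e1.symm, e1 ▸ hne⟩

omit [Fintype P] in
theorem eS_erase {S : Finset P} {l x} (hl : l ∈ S) (he : Es col S l) (hx : x ≤ l) :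
    eS col (S.erase l) x = eS col S x - sg (col l) +
      ∑ v ∈ EE col (S.erase l) x \ EE col S x, sg (col v) := by
  have h1 : (EE col S x).erase l ⊆ EE col (S.erase l) x := fun v hv => by
    rw [mem_erase, mem_EE] at hv
    exact mem_EE.2 ⟨mem_erase.2 ⟨hv.1, hv.2.1⟩, hv.2.2.1, hv.2.2.2.anti (erase_subset _ _)⟩
  have h2 : EE col (S.erase l) x \ EE col S x = EE col (S.erase l) x \ (EE col S x).erase l := by
    ext v
    simp only [mem_sdiff, mem_erase, mem_EE]
    tauto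
  have h3 := sum_sdiff (f := fun v => sg (col v)) h1
  have h4 := add_sum_erase (EE col S x) (fun v => sg (col v)) (mem_EE.2 ⟨hl, hx, he⟩)
  rw [h2]; unfold eS; linarith

omit [Fintype P] in
theorem new_ess {S : Finset P} {l v} (h : Es col (S.erase l) v) (hn : ¬ Es col S v) :
    ∃ p q, v ≤ p ∧ p ⋖ q ∧ q ⋖ l ∧ col p = col q ∧ col l ≠ col q := by
  obtain ⟨p, q, c, k1, k2⟩ := not_not.1 hn
  by_cases e : c = l
  · exact ⟨p, q, e ▸ k2⟩
  · exact absurd ⟨p, q, c, mem_erase.2 ⟨e, k1⟩, k2⟩ h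

theorem lemA (hF : Forest P) {S : Finset P} {l} (hS : Cvx S) (hl : MaxIn S l) {x} (hx : x ≤ l) :
    sg (col l) * eS col (S.erase l) x ≤ sg (col l) * (eS col S x - sg (col l)) := by
  have := sum_le_of_inj (col := col) (EE col (S.erase l) x \ EE col S x) (col l) (· ⋖ ·) ?_ ?_
  · rw [eS_erase hl.1 (g_max hl).2.1 hx, mul_add]; linarith
  · intro v hv hc
    simp only [mem_sdiff, mem_EE] at hv ⊢
    obtain ⟨⟨v1, v2, v3⟩, v4⟩ := hv
    have v5 := mem_of_mem_erase v1
    obtain ⟨p, q, k1, k2, k3, k4, k5⟩ := new_ess v3 fun h => v4 ⟨v5, v2, h⟩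
    have : v ≠ p := by
      rintro rfl
      exact k5 (hc.symm.trans k4)
    obtain ⟨w, w1, w2⟩ := exists_covBy_le_of_lt (lt_of_le_of_ne k1 this)
    have pl : p < l := k2.lt.trans k3.lt
    have mem : ∀ z, v ≤ z → z ≤ p → z ∈ S.erase l := fun z a b =>
      mem_erase.2 ⟨(b.trans_lt pl).ne, hS v v5 l hl.1 z a (b.trans pl.le)⟩
    refine ⟨w, ⟨⟨mem w w1.le w2, v2.trans w1.le, v3.up w1.le⟩,
      fun h => h.2.2 ⟨p, q, l, hl.1, w2, k2, k3, k4, k5⟩⟩, fun h => k5 ?_, w1⟩
    have := mono_col (cvx_erase hS (Or.inl hl)) v1 v3 w1 (hc.trans h.symm) p (mem p k1 le_rfl) w2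
    rw [← k4, this, hc]
  · intro v _ v' _ w _ _ h h'
    exact hF _ _ _ h h'

theorem lemB (hF : Forest P) {S : Finset P} {r a} (hS : Cvx S) (hr : MinIn S r)
    (hp : 0 < sg a * eS col S r) :
    ∃ l, MaxIn S l ∧ col l = a ∧ ∀ y ∈ S.erase l, Es col (S.erase l) y → Es col S y := by
  by_contra hc
  push Not at hc
  have P1 : ∀ l, MaxIn S l → col l = a → ∃ p q, p ∈ S ∧ q ∈ S ∧ p ⋖ q ∧ q ⋖ l ∧ col p ≠ a ∧
      col q ≠ a ∧ Es col S q ∧ ∀ v ∈ S, q ⋖ v → col v = a → v = l := by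
    intro l hl hcl
    obtain ⟨y, y1, y2, y3⟩ := hc l hl hcl
    obtain ⟨p, q, k1, k2, k3, k4, k5⟩ := new_ess y2 y3
    have y4 := mem_of_mem_erase y1
    refine ⟨p, q, hS y y4 l hl.1 p k1 (k2.le.trans k3.le), hS y y4 l hl.1 q (k1.trans k2.le) k3.le,
      k2, k3, fun h => k5 (hcl.trans (h.symm.trans k4)), fun h => k5 (hcl.trans h.symm), ?_, ?_⟩
    · by_contra h
      obtain ⟨p', q', j1, j2, j3, -⟩ := new_ess (l := l) (y2.up (k1.trans k2.le)) h
      have := hF _ _ _ j3 k3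
      subst this
      exact (j1.trans_lt j2.lt).ne rfl
    · intro v hv h1 h2
      by_contra hne
      exact y2 ⟨p, q, v, mem_erase.2 ⟨hne, hv⟩, k1, k2, h1, k4, (h2.trans hcl.symm) ▸ k5⟩
  have := sum_le_of_inj (col := col) (EE col S r) a
    (fun v w => v ⋖ w ∨ (w ⋖ v ∧ (∃ p, p ⋖ w ∧ col p ≠ a) ∧
      ∀ v' ∈ S, w ⋖ v' → col v' = a → v' = v)) ?_ ?_
  · unfold eS at hp; omega
  · intro v hv hcv
    rw [mem_EE] at hv
    by_cases hl : MaxIn S v
    · obtain ⟨p, q, p1, q1, k1, k2, k3, k4, k5, k6⟩ := P1 v hl hcv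
      have : r ≠ v := by
        rintro rfl
        exact k2.lt.ne (hr.2 q q1 k2.le)
      exact ⟨q, mem_EE.2 ⟨q1, le_cov hF (lt_of_le_of_ne hv.2.1 this) k2, k5⟩, k4,
        Or.inr ⟨k2, ⟨p, k1, k3⟩, k6⟩⟩
    · have : ∃ z ∈ S, v ≤ z ∧ z ≠ v := by
        by_contra hc
        push Not at hc
        exact hl ⟨hv.1, hc⟩
      obtain ⟨z, z1, z2, z3⟩ := this
      obtain ⟨w, w1, w2⟩ := exists_covBy_le_of_lt (lt_of_le_of_ne z2 z3.symm)
      have w3 : w ∈ S := hS v hv.1 z z1 w w1.le w2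
      refine ⟨w, mem_EE.2 ⟨w3, hv.2.1.trans w1.le, hv.2.2.up w1.le⟩, fun hw => ?_, Or.inl w1⟩
      have mc := mono_col hS hv.1 hv.2.2 w1 (hcv.trans hw.symm)
      obtain ⟨l, l1, l2⟩ := (wellFounded_gt (α := P)).has_min {y | y ∈ S ∧ w ≤ y} ⟨w, w3, le_rfl⟩
      have hl : MaxIn S l := ⟨l1.1, fun y hy k => by
        by_contra hne
        exact l2 y ⟨hy, l1.2.trans k⟩ (lt_of_le_of_ne k (Ne.symm hne))⟩
      obtain ⟨p, q, p1, q1, k1, k2, k3, k4, -⟩ := P1 l hl ((mc l l1.1 l1.2).trans hcv)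
      rcases l1.2.eq_or_lt with rfl | h
      · exact k4 (hF _ _ _ w1 k2 ▸ hcv)
      · exact k4 ((mc q q1 (le_cov hF h k2)).trans hcv)
  · intro v hv v' hv' w cv cv' h h'
    rw [mem_EE] at hv hv'
    rcases h with h | ⟨h1, ⟨p, h2, h3⟩, h4⟩ <;> rcases h' with h' | ⟨j1, ⟨p', j2, j3⟩, j4⟩
    · exact hF _ _ _ h h'
    · exact absurd (hF _ _ _ h j2 ▸ cv) j3
    · exact absurd (hF _ _ _ h' h2 ▸ cv') h3
    · exact j4 v hv.1 h1 cv

theorem propA (hF : Forest P) {S : Finset P} {v} (hS : Cvx S) (h : MaxIn S v ∨ MinIn S v) :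
    sg (col v) * phi col (S.erase v) ≤ sg (col v) * phi col S - 1 := by
  rcases h with h | h
  · have := phi_max hF hS h (col v) fun x _ k => lemA hF hS h k.le
    rwa [mul_sub, sg_sq] at this
  · rw [phi_min hF hS h, gS_eq]
    cases col v <;> simp [sg, F] <;> omega

theorem propB (hF : Forest P) {S : Finset P} {a} (hS : Cvx S) (hp : 0 < sg a * phi col S) :
    ∃ v, (MaxIn S v ∨ MinIn S v) ∧ col v = a ∧
      sg a * phi col S - 1 ≤ sg a * phi col (S.erase v) := by
  have : ∃ r ∈ rt S, 0 < sg a * gS col S r := by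
    by_contra hc
    push Not at hc
    have := sum_nonpos hc
    rw [← mul_sum] at this
    unfold phi at hp; omega
  obtain ⟨r, r1, r2⟩ := this
  rw [mem_rt] at r1
  by_cases h : col r = a ∧ gS col S r = sg a + ∑ c ∈ ch S r, gS col S c
  · refine ⟨r, Or.inr r1, h.1, ?_⟩
    rw [phi_min hF hS r1, h.2]
    have := sg_sq a
    nlinarith
  · have : 0 < sg a * eS col S r := by
      rw [gS_eq] at r2 h
      revert r2 h
      cases a <;> cases col r <;> simp [sg, F] <;> omega
    obtain ⟨l, l1, l2, l3⟩ := lemB hF hS r1 this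
    refine ⟨l, Or.inl l1, l2, ?_⟩
    have := phi_max (col := col) hF hS l1 (!a) fun x _ k => by
      rw [eS_erase l1.1 (g_max l1).2.1 k.le]
      have : EE col (S.erase l) x \ EE col S x = ∅ := by
        rw [sdiff_eq_empty_iff_subset]
        intro y hy
        rw [mem_EE] at hy ⊢
        exact ⟨mem_of_mem_erase hy.1, hy.2.1, l3 y hy.1 hy.2.2⟩
      simp [this]
    rw [sg_not, l2] at this
    have := sg_sq a
    nlinarith

theorem main (hF : Forest P) (p : Finset P × ℤ) (hp : Cvx p.1) (a : Bool) :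
    (0 < sg a * (phi col p.1 + p.2) → Out (Mv col) true a p) ∧
      (sg a * (phi col p.1 + p.2) ≤ 0 → Out (Mv col) false a p) := by
  refine out_of (Mv col) (fun p => Cvx p.1) (fun p => p.1.card + p.2.natAbs)
    (fun p => phi col p.1 + p.2) ?_ ?_ ?_ p hp a
  · rintro a ⟨S, k⟩ q hS (⟨v, h1, h2, rfl⟩ | ⟨h1, rfl⟩)
    · have := card_erase_lt_of_mem (h1.elim (·.1) (·.1))
      refine ⟨?_, cvx_erase hS h1⟩
      simp only at this ⊢
      omega
    · refine ⟨?_, hS⟩
      cases a <;> simp [sg] at h1 ⊢ <;> omega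
  · rintro a ⟨S, k⟩ q hS (⟨v, h1, rfl, rfl⟩ | ⟨h1, rfl⟩)
    · have := propA (col := col) hF hS h1
      simp only [mul_add] at this ⊢
      linarith
    · simp only [mul_add, mul_sub, sg_sq]; linarith
  · rintro a ⟨S, k⟩ hS h
    simp only [mul_add] at h ⊢
    by_cases hk : 0 < sg a * k
    · exact ⟨_, Or.inr ⟨hk, rfl⟩, by simp only [mul_sub, sg_sq]; linarith⟩
    · obtain ⟨l, h1, h2, h3⟩ := propB (col := col) (S := S) (a := a) hF hS (by linarith)
      exact ⟨_, Or.inl ⟨l, h1, h2, rfl⟩, by simp only; linarith⟩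

open Classical in
omit [DecidableEq P] in
theorem eS_univ (x : P) : eS col univ x = ee col x := by
  have : ∀ v, Es col univ v ↔ Ess col v := fun v => by simp [Es, Ess]
  simp only [eS, ee, EE, card_filter, sum_filter, this]
  push_cast
  rw [← sum_sub_distrib]
  refine sum_congr rfl fun v _ => ?_
  by_cases h : Ess col v <;> by_cases h' : x ≤ v <;> cases col v <;> simp [h, h', sg]

omit [DecidableEq P] in
theorem rec_iff (g : P → ℤ) : Rec col g ↔ g = gS col univ := by
  constructor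
  · intro h
    funext x
    induction x using (wellFounded_gt (α := P)).induction with
    | _ x ih =>
    rw [h x, gS_eq, eS_univ, ← sum_congr rfl fun c hc => ih c (mem_ch.1 hc).2.lt]
    rfl
  · rintro rfl x
    rw [gS_eq, eS_univ]
    rfl

open Classical in
theorem result {P : Type} [PartialOrder P] [Fintype P] [DecidableEq P]
    (hF : ∀ x y z : P, y ⋖ x → z ⋖ x → y = z) (col : P → Bool) :
    (∃! g, Rec col g) ∧
      ∀ g, Rec col g → ∀ n : ℤ, HasValue col n ↔ n = ∑ r ∈ univ.filter IsMin, g r := by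
  refine ⟨⟨gS col univ, (rec_iff _).2 rfl, fun g h => (rec_iff g).1 h⟩, fun g hg n => ?_⟩
  have e : phi col univ = ∑ r ∈ univ.filter IsMin, g r := by
    rw [(rec_iff g).1 hg]
    refine sum_congr ?_ fun _ _ => rfl
    ext y
    simp only [mem_rt, MinIn, mem_univ, true_and, mem_filter, forall_const]
    exact ⟨fun h z k => (h z k).ge, fun h z k => le_antisymm k (h k)⟩
  have hc : Cvx (univ : Finset P) := fun _ _ _ _ _ _ _ => mem_univ _
  rw [← e]
  constructor
  · intro h
    have : ∀ a, sg a * (phi col univ + -n) ≤ 0 := fun a => by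
      by_contra hc'
      exact out_excl (h a) ((main hF (univ, -n) hc a).1 (by simpa using hc'))
    have h1 := this true
    have h2 := this false
    simp only [sg] at h1 h2
    simp at h1 h2
    omega
  · rintro rfl a
    exact (main hF (univ, _) hc a).2 (by simp)

end Pool.Agent.Results.MP_488bb9_co.Formula
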